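import Pool.Agent.Y880.SG.Dens

/-!
Sums of two squares `n = 5 mod 8` have logarithmic sum at most `(1 + ε)` times that of the sums of
two squares `n = 1 mod 8` (Cauchy-Schwarz with the number of small prime divisors `5 mod 8`).
-/

set_option autoImplicit false

namespace Pool.Agent.Y880.SG

open Finset

theorem sumSq_iff (n : ℕ) : SumSq n ↔ ∃ x y : ℕ, n = x ^ 2 + y ^ 2 := by
  constructor
  · rintro ⟨x, y, h⟩
    refine ⟨x.natAbs, y.natAbs, ?_⟩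
    have h1 : ((x.natAbs ^ 2 + y.natAbs ^ 2 : ℕ) : ℤ) = x ^ 2 + y ^ 2 := by
      push_cast
      rw [sq_abs, sq_abs]
    have h2 : (n : ℤ) = ((x.natAbs ^ 2 + y.natAbs ^ 2 : ℕ) : ℤ) := by rw [h1, h]
    exact_mod_cast h2
  · rintro ⟨x, y, h⟩
    refine ⟨x, y, ?_⟩
    rw [h]
    push_cast
    ring

theorem sumSq_div {q n : ℕ} (hq : q.Prime) (h5 : q % 8 = 5) (hn : n ≠ 0) (h : SumSq (q * n)) :
    SumSq n := by
  rw [sumSq_iff] at h ⊢
  rw [Nat.eq_sq_add_sq_iff] at h ⊢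
  intro r hr hr4
  have hrp : r.Prime := Nat.prime_of_mem_primeFactors hr
  have hrd : r ∣ n := Nat.dvd_of_mem_primeFactors hr
  have := Fact.mk hrp
  have h1 := h (q := r) (Nat.mem_primeFactors.2
    ⟨hrp, Dvd.dvd.mul_left hrd q, mul_ne_zero hq.ne_zero hn⟩) hr4
  rw [padicValNat.mul hq.ne_zero hn] at h1
  have h2 : padicValNat r q = 0 := by
    refine padicValNat.eq_zero_of_not_dvd fun hd => ?_
    have := (Nat.prime_dvd_prime_iff_eq hrp hq).1 hd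
    omega
  rw [h2, zero_add] at h1
  exact h1

/-- `∑ 1 / (q n)` over `n ≤ N` with `R n` is at most `∑ 1 / m` over `m ≤ M`, `d ∣ m`, `P m` -/
theorem push_le (d N M : ℕ) (hd : 1 ≤ d) (P R : ℕ → Prop) (hNM : d * N ≤ M)
    (h : ∀ n, 1 ≤ n → n ≤ N → R n → P (d * n)) :
    (1 / (d : ℝ)) * ls N R ≤ ls M (fun m => P m ∧ d ∣ m) := by
  classical
  rw [ls_eq, ls_eq, Finset.mul_sum]
  have hd0 : (d : ℝ) ≠ 0 := by
    have : d ≠ 0 := by omega
    exact_mod_cast this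
  have e1 : ∑ n ∈ (Icc 1 N).filter R, 1 / (d : ℝ) * (1 / (n : ℝ)) =
      ∑ m ∈ ((Icc 1 N).filter R).image (fun n => d * n), (1 : ℝ) / (m : ℝ) := by
    rw [Finset.sum_image]
    · refine Finset.sum_congr rfl fun n hn => ?_
      push_cast
      rw [one_div_mul_one_div]
    · intro a _ b _ hab
      exact Nat.eq_of_mul_eq_mul_left (by omega) hab
  rw [e1]
  refine Finset.sum_le_sum_of_subset_of_nonneg ?_ (fun n _ _ => by positivity)
  intro m hm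
  rw [Finset.mem_image] at hm
  obtain ⟨n, hn, rfl⟩ := hm
  rw [Finset.mem_filter, Finset.mem_Icc] at hn
  rw [Finset.mem_filter, Finset.mem_Icc]
  refine ⟨⟨?_, ?_⟩, h n hn.1.1 hn.1.2 hn.2, dvd_mul_right d n⟩
  · exact Nat.mul_pos (by omega) hn.1.1
  · exact (Nat.mul_le_mul_left d hn.1.2).trans hNM

/-- `∑ 1 / m` over `m ≤ N` with `d ∣ m`, `P m` is at most `1 / d` times `∑ 1 / n`, `R n` -/
theorem pull_le (d N : ℕ) (hd : 1 ≤ d) (P R : ℕ → Prop)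
    (h : ∀ n, 1 ≤ n → P (d * n) → R n) :
    ls N (fun m => P m ∧ d ∣ m) ≤ (1 / (d : ℝ)) * ls N R := by
  classical
  rw [ls_eq, ls_eq, Finset.mul_sum]
  have hd0 : (d : ℝ) ≠ 0 := by
    have : d ≠ 0 := by omega
    exact_mod_cast this
  have e1 : ∑ n ∈ (Icc 1 N).filter R, 1 / (d : ℝ) * (1 / (n : ℝ)) =
      ∑ m ∈ ((Icc 1 N).filter R).image (fun n => d * n), (1 : ℝ) / (m : ℝ) := by
    rw [Finset.sum_image]
    · refine Finset.sum_congr rfl fun n hn => ?_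
      push_cast
      rw [one_div_mul_one_div]
    · intro a _ b _ hab
      exact Nat.eq_of_mul_eq_mul_left (by omega) hab
  rw [e1]
  refine Finset.sum_le_sum_of_subset_of_nonneg ?_ (fun n _ _ => by positivity)
  intro m hm
  rw [Finset.mem_filter, Finset.mem_Icc] at hm
  obtain ⟨⟨hm1, hmN⟩, hP, n, rfl⟩ := hm
  rw [Finset.mem_image]
  refine ⟨n, ?_, rfl⟩
  have hn1 : 1 ≤ n := by
    rcases Nat.eq_zero_or_pos n with h0 | h0
    · subst h0; omega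
    · exact h0
  rw [Finset.mem_filter, Finset.mem_Icc]
  refine ⟨⟨hn1, ?_⟩, h n hn1 hP⟩
  calc n = 1 * n := (one_mul n).symm
    _ ≤ d * n := Nat.mul_le_mul_right n hd
    _ ≤ N := hmN

theorem A1_of_mul_A5 {q n : ℕ} (hq : q.Prime) (h5 : q % 8 = 5) (h : A5 n) : A1 (q * n) := by
  refine ⟨?_, sumSq_mul (sumSq_prime hq h5) h.2⟩
  rw [Nat.mul_mod, h5, h.1]

theorem A5_of_A1_mul {q n : ℕ} (hq : q.Prime) (h5 : q % 8 = 5) (hn : 1 ≤ n) (h : A1 (q * n)) :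
    A5 n := by
  refine ⟨?_, sumSq_div hq h5 (by omega) h.2⟩
  have h1 := h.1
  rw [Nat.mul_mod, h5] at h1
  have : n % 8 < 8 := Nat.mod_lt _ (by norm_num)
  interval_cases h : n % 8 <;> simp_all

theorem A1_of_A1_mul2 {q r n : ℕ} (hq : q.Prime) (h5 : q % 8 = 5) (hr : r.Prime)
    (hr5 : r % 8 = 5) (hn : 1 ≤ n) (h : A1 (q * r * n)) : A1 n := by
  rw [mul_assoc] at h
  have hrn : 1 ≤ r * n := Nat.mul_pos hr.pos hn
  obtain ⟨h1, h2⟩ := A5_of_A1_mul hq h5 hrn h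
  refine ⟨?_, sumSq_div hr hr5 (by omega) h2⟩
  rw [Nat.mul_mod, hr5] at h1
  have : n % 8 < 8 := Nat.mod_lt _ (by norm_num)
  interval_cases h : n % 8 <;> simp_all

theorem cs_main (N w : ℕ) :
    (∑ q ∈ Q w, ls N (fun m => A1 m ∧ q ∣ m)) ^ 2 ≤
      ls N A1 * ((∑ q ∈ Q w, (1 : ℝ) / q) ^ 2 * ls N A1 + (∑ q ∈ Q w, (1 : ℝ) / q) * ls N A5) := by
  classical
  set F : Finset ℕ := (Icc 1 N).filter A1 with hF
  have hone : ∀ q : ℕ, ls N (fun m => A1 m ∧ q ∣ m) =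
      ∑ m ∈ F, (if q ∣ m then (1 : ℝ) else 0) * (1 / (m : ℝ)) := by
    intro q
    rw [ls_eq, hF, ← Finset.filter_filter, Finset.sum_filter]
    refine Finset.sum_congr rfl fun m _ => ?_
    split_ifs <;> simp
  have htwo : ∀ q r : ℕ, ls N (fun m => (A1 m ∧ q ∣ m) ∧ r ∣ m) =
      ∑ m ∈ F, (if q ∣ m then (1 : ℝ) else 0) * (if r ∣ m then (1 : ℝ) else 0) *
        (1 / (m : ℝ)) := by
    intro q r
    rw [ls_eq, hF, ← Finset.filter_filter, ← Finset.filter_filter, Finset.sum_filter,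
      Finset.sum_filter]
    refine Finset.sum_congr rfl fun m _ => ?_
    split_ifs <;> simp
  have hy : ls N A1 = ∑ m ∈ F, 1 / (m : ℝ) := ls_eq N A1
  have h1 : ∑ q ∈ Q w, ls N (fun m => A1 m ∧ q ∣ m) =
      ∑ m ∈ F, Real.sqrt (1 / (m : ℝ)) *
        ((∑ q ∈ Q w, if q ∣ m then (1 : ℝ) else 0) * Real.sqrt (1 / (m : ℝ))) := by
    rw [Finset.sum_congr rfl fun q _ => hone q, Finset.sum_comm]
    refine Finset.sum_congr rfl fun m _ => ?_
    rw [← Finset.sum_mul, mul_left_comm, Real.mul_self_sqrt (by positivity)]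
  rw [h1]
  refine (Finset.sum_mul_sq_le_sq_mul_sq F _ _).trans ?_
  have h2 : ∑ m ∈ F, Real.sqrt (1 / (m : ℝ)) ^ 2 = ls N A1 := by
    rw [hy]
    exact Finset.sum_congr rfl fun m _ => Real.sq_sqrt (by positivity)
  rw [h2]
  refine mul_le_mul_of_nonneg_left ?_ (ls_nonneg N A1)
  have h3 : ∑ m ∈ F, ((∑ q ∈ Q w, if q ∣ m then (1 : ℝ) else 0) * Real.sqrt (1 / (m : ℝ))) ^ 2 =
      ∑ q ∈ Q w, ∑ r ∈ Q w, ls N (fun m => (A1 m ∧ q ∣ m) ∧ r ∣ m) := by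
    rw [Finset.sum_congr rfl fun q _ => Finset.sum_congr rfl fun r _ => htwo q r]
    have h4 : ∀ q ∈ Q w, ∑ r ∈ Q w, ∑ m ∈ F, (if q ∣ m then (1 : ℝ) else 0) *
        (if r ∣ m then (1 : ℝ) else 0) * (1 / (m : ℝ)) = ∑ m ∈ F, ∑ r ∈ Q w,
        (if q ∣ m then (1 : ℝ) else 0) * (if r ∣ m then (1 : ℝ) else 0) * (1 / (m : ℝ)) :=
      fun q _ => Finset.sum_comm
    rw [Finset.sum_congr rfl h4, Finset.sum_comm]
    refine Finset.sum_congr rfl fun m _ => ?_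
    rw [mul_pow, Real.sq_sqrt (by positivity), sq, Finset.sum_mul_sum, Finset.sum_mul]
    refine Finset.sum_congr rfl fun q _ => ?_
    rw [Finset.sum_mul]
  rw [h3]
  have h5 : ∀ q ∈ Q w, ∑ r ∈ Q w, ls N (fun m => (A1 m ∧ q ∣ m) ∧ r ∣ m) ≤
      ∑ r ∈ Q w, (1 / (q : ℝ) * (1 / (r : ℝ)) * ls N A1 +
        if q = r then 1 / (q : ℝ) * ls N A5 else 0) := by
    intro q hq
    refine Finset.sum_le_sum fun r hr => ?_
    obtain ⟨-, hqp, hq5, -⟩ := mem_Q.1 hq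
    obtain ⟨-, hrp, hr5, -⟩ := mem_Q.1 hr
    by_cases hqr : q = r
    · rw [if_pos hqr]
      have h6 : ls N (fun m => (A1 m ∧ q ∣ m) ∧ r ∣ m) ≤ ls N (fun m => A1 m ∧ q ∣ m) :=
        ls_mono_pred N fun n _ _ h => h.1
      have h7 := pull_le q N hqp.pos A1 A5 fun n hn h => A5_of_A1_mul hqp hq5 hn h
      have h8 : 0 ≤ 1 / (q : ℝ) * (1 / (r : ℝ)) * ls N A1 :=
        mul_nonneg (by positivity) (ls_nonneg N A1)
      linarith
    · rw [if_neg hqr, add_zero]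
      have h6 : ls N (fun m => (A1 m ∧ q ∣ m) ∧ r ∣ m) ≤ ls N (fun m => A1 m ∧ q * r ∣ m) := by
        refine ls_mono_pred N fun n _ _ h => ⟨h.1.1, ?_⟩
        exact Nat.Coprime.mul_dvd_of_dvd_of_dvd ((Nat.coprime_primes hqp hrp).2 hqr) h.1.2 h.2
      have h7 := pull_le (q * r) N (Nat.mul_pos hqp.pos hrp.pos) A1 A1
        fun n hn h => A1_of_A1_mul2 hqp hq5 hrp hr5 hn h
      have h8 : (1 : ℝ) / ((q * r : ℕ) : ℝ) = 1 / (q : ℝ) * (1 / (r : ℝ)) := by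
        push_cast
        rw [one_div_mul_one_div]
      rw [h8] at h7
      exact h6.trans h7
  refine (Finset.sum_le_sum h5).trans ?_
  refine le_of_eq ?_
  rw [Finset.sum_congr rfl fun q _ => Finset.sum_add_distrib, Finset.sum_add_distrib]
  congr 1
  · rw [sq, Finset.sum_mul_sum, Finset.sum_mul]
    refine Finset.sum_congr rfl fun q _ => ?_
    rw [Finset.sum_mul]
  · rw [Finset.sum_mul]
    refine Finset.sum_congr rfl fun q hq => ?_
    rw [Finset.sum_ite_eq]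
    rw [if_pos hq]

theorem low (N w : ℕ) (hw : 1 ≤ w) :
    (∑ q ∈ Q w, (1 : ℝ) / q) * ls (N / w) A5 ≤ ∑ q ∈ Q w, ls N (fun m => A1 m ∧ q ∣ m) := by
  rw [Finset.sum_mul]
  refine Finset.sum_le_sum fun q hq => ?_
  obtain ⟨hqw, hqp, hq5, -⟩ := mem_Q.1 hq
  refine push_le q (N / w) N hqp.pos A1 A5 ?_ fun n _ _ h => A1_of_mul_A5 hqp hq5 h
  calc q * (N / w) ≤ w * (N / w) := Nat.mul_le_mul_right _ hqw.le
    _ ≤ N := Nat.mul_div_le N w

theorem A5_le (ε : ℝ) (hε : 0 < ε) :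
    ∃ N0 : ℕ, ∀ N : ℕ, N0 ≤ N → ls N A5 ≤ (1 + ε) * ls N A1 := by
  obtain ⟨w0, hw0⟩ := Q_sum_large ((1 + ε) / ε)
  set w := w0 + 1 with hw
  have h3 : ∑ q ∈ Q w0, (1 : ℝ) / q ≤ ∑ q ∈ Q w, (1 : ℝ) / q := by
    refine Finset.sum_le_sum_of_subset_of_nonneg ?_ (fun n _ _ => by positivity)
    intro q hq
    rw [mem_Q] at hq ⊢
    exact ⟨by omega, hq.2⟩
  set σ : ℝ := ∑ q ∈ Q w, (1 : ℝ) / q with hσ
  have hσε : (1 + ε) / ε ≤ σ := hw0.trans h3
  have hσ0 : 0 < σ := lt_of_lt_of_le (by positivity) hσε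
  have hσ1 : 1 + ε ≤ σ * ε := (div_le_iff₀ hε).1 hσε
  obtain ⟨N0, hN0⟩ := A1_unbounded (2 * (1 + ε) * w / ε + w + 1)
  refine ⟨N0, fun N hN => ?_⟩
  by_contra hcon
  push Not at hcon
  have hy := hN0 N hN
  have hcs := cs_main N w
  have hlow := low N w (by omega)
  have htail := ls_tail N w (by omega) A5
  rw [← hσ] at hcs hlow
  set x := ls N A5 with hx
  set y := ls N A1 with hyy
  set x' := ls (N / w) A5 with hx'
  have hx'0 : 0 ≤ x' := ls_nonneg _ _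
  have hw1 : (1 : ℝ) ≤ w := by
    rw [hw]
    push_cast
    have : (0 : ℝ) ≤ w0 := Nat.cast_nonneg _
    linarith
  have hq0 : 0 ≤ 2 * (1 + ε) * w / ε := by positivity
  have hy0 : 0 < y := by linarith
  have hxy : y ≤ x := by nlinarith
  have h1 : (σ * x') ^ 2 ≤ y * (σ ^ 2 * y + σ * x) :=
    (pow_le_pow_left₀ (by positivity) hlow 2).trans hcs
  have h2 : σ * x' ^ 2 ≤ y * (σ * y + x) := by
    have : σ * (σ * x' ^ 2) ≤ σ * (y * (σ * y + x)) := by nlinarith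
    exact le_of_mul_le_mul_left this hσ0
  have h4 : (1 + ε) * ((1 + ε) * (σ * x' ^ 2)) ≤ x * (σ * x + (1 + ε) * x) := by
    have e1 : (1 + ε) * ((1 + ε) * (σ * x' ^ 2)) ≤ (1 + ε) * ((1 + ε) * (y * (σ * y + x))) := by
      gcongr
    have e2 : (1 + ε) * ((1 + ε) * (y * (σ * y + x))) =
        ((1 + ε) * y) * (σ * ((1 + ε) * y) + (1 + ε) * x) := by ring
    have e3 : ((1 + ε) * y) * (σ * ((1 + ε) * y) + (1 + ε) * x) ≤
        x * (σ * x + (1 + ε) * x) := by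
      have hx0 : 0 < x := by linarith
      gcongr
    linarith
  have h5 : x * (σ * x + (1 + ε) * x) ≤ (1 + ε) * (σ * x ^ 2) := by
    have : 0 ≤ x ^ 2 := sq_nonneg x
    nlinarith
  have h6 : (1 + ε) * x' ^ 2 ≤ x ^ 2 := by
    have e1 : ((1 + ε) * σ) * ((1 + ε) * x' ^ 2) ≤ ((1 + ε) * σ) * x ^ 2 := by
      nlinarith
    exact le_of_mul_le_mul_left e1 (by positivity)
  have h7 : 0 ≤ x - w := by linarith
  have h8 : (x - w) ^ 2 ≤ x' ^ 2 := pow_le_pow_left₀ h7 (by linarith) 2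
  have h9 : (1 + ε) * (x - w) ^ 2 ≤ x ^ 2 := by
    refine le_trans ?_ h6
    exact mul_le_mul_of_nonneg_left h8 (by positivity)
  have h10 : 2 * (1 + ε) * w < ε * x := by
    have e1 : 2 * (1 + ε) * w / ε < x := by linarith
    rw [div_lt_iff₀ hε] at e1
    linarith
  have h11 : 0 < x := by linarith
  nlinarith [mul_lt_mul_of_pos_right h10 h11, sq_nonneg (w : ℝ)]

end Pool.Agent.Y880.SG
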