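import Mathlib
import Pool.Agent.Helper379.Div3

/-!
Sums of two squares `n = 1 mod 8` at which all primes `p = 5 mod 8` have even exponent are rare
(in logarithmic density) among the sums of two squares `n = 1 mod 8`.
-/

set_option autoImplicit false

namespace Pool.Agent.Y880.SG

open Finset

/-- sum of two squares -/
def SumSq (n : ℕ) : Prop := ∃ x y : ℤ, (n : ℤ) = x ^ 2 + y ^ 2

theorem sumSq_mul {a b : ℕ} (ha : SumSq a) (hb : SumSq b) : SumSq (a * b) := by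
  obtain ⟨x, y, h1⟩ := ha
  obtain ⟨z, w, h2⟩ := hb
  refine ⟨x * z - y * w, x * w + y * z, ?_⟩
  push_cast
  rw [h1, h2]
  ring

theorem sumSq_prime {q : ℕ} (hq : q.Prime) (h5 : q % 8 = 5) : SumSq q := by
  have := Fact.mk hq
  obtain ⟨a, b, h⟩ := Nat.Prime.sq_add_sq (p := q) (by omega)
  refine ⟨a, b, ?_⟩
  rw [← h]
  push_cast
  ring

/-- all primes `5 mod 8` have even exponent -/
def EvenVal (n : ℕ) : Prop := ∀ p : ℕ, p.Prime → p % 8 = 5 → Even (padicValNat p n)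

open Classical in
/-- logarithmic sum -/
noncomputable def ls (N : ℕ) (P : ℕ → Prop) : ℝ := ∑ n ∈ (Icc 1 N).filter P, (1 : ℝ) / n

theorem ls_eq (N : ℕ) (P : ℕ → Prop) [DecidablePred P] :
    ls N P = ∑ n ∈ (Icc 1 N).filter P, (1 : ℝ) / n := by
  unfold ls
  congr!

theorem ls_nonneg (N : ℕ) (P : ℕ → Prop) : 0 ≤ ls N P :=
  Finset.sum_nonneg fun n _ => by positivity

theorem ls_mono_pred (N : ℕ) {P R : ℕ → Prop} (h : ∀ n, 1 ≤ n → n ≤ N → P n → R n) :
    ls N P ≤ ls N R := by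
  classical
  unfold ls
  refine Finset.sum_le_sum_of_subset_of_nonneg ?_ (fun n _ _ => by positivity)
  intro n hn
  rw [Finset.mem_filter, Finset.mem_Icc] at hn ⊢
  exact ⟨hn.1, h n hn.1.1 hn.1.2 hn.2⟩

theorem ls_mono {M N : ℕ} (h : M ≤ N) (P : ℕ → Prop) : ls M P ≤ ls N P := by
  classical
  unfold ls
  refine Finset.sum_le_sum_of_subset_of_nonneg ?_ (fun n _ _ => by positivity)
  exact Finset.filter_subset_filter _ (Finset.Icc_subset_Icc_right h)

theorem ls_or (N : ℕ) (P R : ℕ → Prop) : ls N (fun n => P n ∨ R n) ≤ ls N P + ls N R := by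
  classical
  rw [ls_eq, ls_eq N P, ls_eq N R]
  have : (Icc 1 N).filter (fun n => P n ∨ R n) = (Icc 1 N).filter P ∪ (Icc 1 N).filter R := by
    ext n
    simp only [Finset.mem_filter, Finset.mem_union]
    tauto
  rw [this]
  have := Finset.sum_union_inter (s₁ := (Icc 1 N).filter P) (s₂ := (Icc 1 N).filter R)
    (f := fun n : ℕ => (1 : ℝ) / n)
  have h0 : 0 ≤ ∑ n ∈ (Icc 1 N).filter P ∩ (Icc 1 N).filter R, (1 : ℝ) / n :=
    Finset.sum_nonneg fun n _ => by positivity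
  linarith

/-- the part of a logarithmic sum between `N / D` and `N` is at most `D` -/
theorem ls_tail (N D : ℕ) (hD : 1 ≤ D) (P : ℕ → Prop) : ls N P ≤ ls (N / D) P + D := by
  classical
  rcases Nat.eq_zero_or_pos N with h0 | h0
  · subst h0
    unfold ls
    simp
  have hsub : (Icc 1 N).filter P ⊆ (Icc 1 (N / D)).filter P ∪ Ioc (N / D) N := by
    intro n hn
    rw [Finset.mem_filter, Finset.mem_Icc] at hn
    rw [Finset.mem_union, Finset.mem_filter, Finset.mem_Icc, Finset.mem_Ioc]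
    by_cases h : n ≤ N / D
    · exact Or.inl ⟨⟨hn.1.1, h⟩, hn.2⟩
    · exact Or.inr ⟨not_le.1 h, hn.1.2⟩
  have h1 : ls N P ≤ ∑ n ∈ (Icc 1 (N / D)).filter P ∪ Ioc (N / D) N, (1 : ℝ) / n :=
    Finset.sum_le_sum_of_subset_of_nonneg hsub (fun n _ _ => by positivity)
  have h2 := Finset.sum_union_inter (s₁ := (Icc 1 (N / D)).filter P) (s₂ := Ioc (N / D) N)
    (f := fun n : ℕ => (1 : ℝ) / n)
  have h3 : 0 ≤ ∑ n ∈ (Icc 1 (N / D)).filter P ∩ Ioc (N / D) N, (1 : ℝ) / n :=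
    Finset.sum_nonneg fun n _ => by positivity
  have h4 : ∑ n ∈ Ioc (N / D) N, (1 : ℝ) / n ≤ D := by
    have hN : (0 : ℝ) < N := by exact_mod_cast h0
    calc ∑ n ∈ Ioc (N / D) N, (1 : ℝ) / n ≤ ∑ n ∈ Ioc (N / D) N, (D : ℝ) / N := by
          refine Finset.sum_le_sum fun n hn => ?_
          rw [Finset.mem_Ioc] at hn
          have hn1 : N < n * D := (Nat.div_lt_iff_lt_mul (by omega)).1 hn.1
          have hn0 : 0 < n := by
            rcases Nat.eq_zero_or_pos n with h | h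
            · subst h; simp at hn1
            · exact h
          have hn0' : (0 : ℝ) < n := by exact_mod_cast hn0
          rw [div_le_div_iff₀ hn0' hN]
          have : (N : ℝ) ≤ n * D := by exact_mod_cast hn1.le
          linarith
      _ = ((Ioc (N / D) N).card : ℝ) * ((D : ℝ) / N) := by rw [Finset.sum_const, nsmul_eq_mul]
      _ ≤ (N : ℝ) * ((D : ℝ) / N) := by
          refine mul_le_mul_of_nonneg_right ?_ (by positivity)
          rw [Nat.card_Ioc]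
          exact_mod_cast Nat.sub_le _ _
      _ = D := by field_simp
  unfold ls at h1 ⊢
  linarith

/-- `n = 1 mod 8`, sum of two squares -/
def A1 (n : ℕ) : Prop := n % 8 = 1 ∧ SumSq n
/-- `n = 5 mod 8`, sum of two squares -/
def A5 (n : ℕ) : Prop := n % 8 = 5 ∧ SumSq n
/-- the rare set -/
def E (n : ℕ) : Prop := A1 n ∧ EvenVal n

/-- primes `5 mod 8`, different from `5`, below `w` -/
noncomputable def Q (w : ℕ) : Finset ℕ := (range w).filter fun q => q.Prime ∧ q % 8 = 5 ∧ q ≠ 5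

theorem mem_Q {w q : ℕ} : q ∈ Q w ↔ q < w ∧ q.Prime ∧ q % 8 = 5 ∧ q ≠ 5 := by
  unfold Q
  rw [Finset.mem_filter, Finset.mem_range]

theorem Q_sum_large (M : ℝ) : ∃ w : ℕ, M ≤ ∑ q ∈ Q w, (1 : ℝ) / q := by
  have h := Pool.Agent.Helper379.Div3.not_summable_inv_primes_mod (q := 8) (a := 5)
    (by decide : IsUnit (5 : ZMod 8))
  have h' := (not_summable_iff_tendsto_nat_atTop_of_nonneg (f := fun n : ℕ =>
    if n.Prime ∧ (n : ZMod 8) = 5 then (1 : ℝ) / n else 0) (fun n => by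
      split_ifs <;> positivity)).1 h
  obtain ⟨w, hw⟩ := (h'.eventually_ge_atTop (M + 1)).exists
  refine ⟨w, ?_⟩
  have hle : ∑ i ∈ range w, (if i.Prime ∧ (i : ZMod 8) = 5 then (1 : ℝ) / i else 0) ≤
      ∑ q ∈ Q w, (1 : ℝ) / q + 1 := by
    rw [← Finset.sum_filter]
    have hsub : (range w).filter (fun i : ℕ => i.Prime ∧ (i : ZMod 8) = 5) ⊆ insert 5 (Q w) := by
      intro i hi
      rw [Finset.mem_filter, Finset.mem_range] at hi
      rw [Finset.mem_insert, mem_Q]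
      by_cases h5 : i = 5
      · exact Or.inl h5
      · refine Or.inr ⟨hi.1, hi.2.1, ?_, h5⟩
        have := (ZMod.natCast_eq_natCast_iff' i 5 8).1 (by exact_mod_cast hi.2.2)
        omega
    calc ∑ i ∈ (range w).filter (fun i : ℕ => i.Prime ∧ (i : ZMod 8) = 5), (1 : ℝ) / i
        ≤ ∑ i ∈ insert 5 (Q w), (1 : ℝ) / i :=
          Finset.sum_le_sum_of_subset_of_nonneg hsub (fun n _ _ => by positivity)
      _ ≤ ∑ q ∈ Q w, (1 : ℝ) / q + 1 := by
          rw [Finset.sum_insert (by rw [mem_Q]; tauto)]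
          norm_num
          linarith
  linarith

theorem val_five {q : ℕ} (hq : q.Prime) (hne : q ≠ 5) : padicValNat q 5 = 0 := by
  refine padicValNat.eq_zero_of_not_dvd fun h => ?_
  exact hne ((Nat.prime_dvd_prime_iff_eq hq (by norm_num)).1 h)

theorem val_mul {r q m : ℕ} (hr : r.Prime) (hne : r ≠ 5) (hq : q.Prime) (hm0 : m ≠ 0) :
    padicValNat r (5 * q * m) = padicValNat r q + padicValNat r m := by
  have := Fact.mk hr
  have hq0 : q ≠ 0 := hq.ne_zero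
  rw [padicValNat.mul (by omega) hm0, padicValNat.mul (by norm_num) hq0, val_five hr hne, zero_add]

theorem inj_aux {q r m n : ℕ} (hq : q.Prime) (hq5 : q % 8 = 5) (hqne : q ≠ 5)
    (hr : r.Prime) (hm : EvenVal m) (hm0 : m ≠ 0) (hn : EvenVal n) (hn0 : n ≠ 0)
    (h : 5 * q * m = 5 * r * n) : q = r := by
  by_contra hne
  have := Fact.mk hq
  have h1 := val_mul hq hqne hq hm0
  have h2 := val_mul hq hqne hr hn0
  have h3 : padicValNat q r = 0 :=
    padicValNat.eq_zero_of_not_dvd fun hd => hne ((Nat.prime_dvd_prime_iff_eq hq hr).1 hd)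
  rw [h] at h1
  rw [h3] at h2
  rw [padicValNat.self hq.one_lt] at h1
  obtain ⟨a, ha⟩ := hm q hq hq5
  obtain ⟨b, hb⟩ := hn q hq hq5
  omega

theorem key (N w : ℕ) (hw : 1 ≤ w) :
    (1 / 5) * (∑ q ∈ Q w, (1 : ℝ) / q) * ls (N / (5 * w)) E ≤ ls N A1 := by
  classical
  set F : Finset ℕ := (Icc 1 (N / (5 * w))).filter E with hF
  have e1 : (1 / 5) * (∑ q ∈ Q w, (1 : ℝ) / q) * ls (N / (5 * w)) E =
      ∑ x ∈ Q w ×ˢ F, (1 : ℝ) / ((5 * x.1 * x.2 : ℕ) : ℝ) := by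
    rw [Finset.sum_product]
    rw [ls_eq, mul_assoc, Finset.sum_mul_sum, Finset.mul_sum]
    refine Finset.sum_congr rfl fun q hq => ?_
    rw [Finset.mul_sum]
    refine Finset.sum_congr (by rw [hF]) fun n hn => ?_
    push_cast
    have hq0 : (q : ℝ) ≠ 0 := by
      have := (mem_Q.1 hq).2.1.ne_zero
      exact_mod_cast this
    have hn0 : (n : ℝ) ≠ 0 := by
      rw [Finset.mem_filter, Finset.mem_Icc] at hn
      have : n ≠ 0 := by omega
      exact_mod_cast this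
    field_simp
  rw [e1]
  have hinj : Set.InjOn (fun x : ℕ × ℕ => 5 * x.1 * x.2) (Q w ×ˢ F : Finset (ℕ × ℕ)) := by
    intro x hx y hy hxy
    rw [Finset.mem_coe, Finset.mem_product] at hx hy
    obtain ⟨-, hxp, hx5, hxne⟩ := mem_Q.1 hx.1
    obtain ⟨-, hyp, hy5, hyne⟩ := mem_Q.1 hy.1
    have hx2 := hx.2
    have hy2 := hy.2
    rw [hF, Finset.mem_filter, Finset.mem_Icc] at hx2 hy2
    have h1 : x.1 = y.1 := inj_aux hxp hx5 hxne hyp hx2.2.2 (by omega) hy2.2.2 (by omega) hxy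
    have h2 : x.2 = y.2 := by
      change 5 * x.1 * x.2 = 5 * y.1 * y.2 at hxy
      have hh : 5 * x.1 * x.2 = 5 * x.1 * y.2 := by
        rw [h1] at hxy ⊢
        exact hxy
      have h0 : 0 < 5 * x.1 := by
        have := hxp.pos
        omega
      exact Nat.eq_of_mul_eq_mul_left h0 hh
    exact Prod.ext h1 h2
  have e2 : ∑ x ∈ Q w ×ˢ F, (1 : ℝ) / ((5 * x.1 * x.2 : ℕ) : ℝ) =
      ∑ m ∈ (Q w ×ˢ F).image (fun x : ℕ × ℕ => 5 * x.1 * x.2), (1 : ℝ) / (m : ℝ) :=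
    (Finset.sum_image (f := fun m : ℕ => (1 : ℝ) / (m : ℝ)) hinj).symm
  rw [e2]
  unfold ls
  refine Finset.sum_le_sum_of_subset_of_nonneg ?_ (fun n _ _ => by positivity)
  intro m hm
  rw [Finset.mem_image] at hm
  obtain ⟨⟨q, n⟩, hx, rfl⟩ := hm
  rw [Finset.mem_product] at hx
  obtain ⟨hqw, hqp, hq5, hqne⟩ := mem_Q.1 hx.1
  have hx2 := hx.2
  rw [hF, Finset.mem_filter, Finset.mem_Icc] at hx2
  dsimp only at hx2 hqw hqp hq5 hqne ⊢
  obtain ⟨⟨hn1, hnN⟩, ⟨hn8, hnS⟩, hnE⟩ := hx2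
  rw [Finset.mem_filter, Finset.mem_Icc]
  refine ⟨⟨?_, ?_⟩, ?_, ?_⟩
  · have := hqp.pos
    have h1 : 0 < 5 * q * n := by positivity
    exact h1
  · have h1 : n * (5 * w) ≤ N := (Nat.le_div_iff_mul_le (by omega)).1 hnN
    have h2 : 5 * q * n ≤ n * (5 * w) := by nlinarith
    exact h2.trans h1
  · rw [Nat.mul_mod, Nat.mul_mod 5 q, hq5, hn8]
  · exact sumSq_mul (sumSq_mul ⟨1, 2, by norm_num⟩ (sumSq_prime hqp hq5)) hnS

theorem one_mem_E : E 1 := by
  refine ⟨⟨by norm_num, ⟨1, 0, by norm_num⟩⟩, fun p _ _ => ?_⟩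
  simp

theorem ls_E_ge_one {N : ℕ} (hN : 1 ≤ N) : 1 ≤ ls N E := by
  classical
  unfold ls
  have h : ({1} : Finset ℕ) ⊆ (Icc 1 N).filter E := by
    intro x hx
    rw [Finset.mem_singleton] at hx
    subst hx
    rw [Finset.mem_filter, Finset.mem_Icc]
    exact ⟨⟨le_refl _, hN⟩, one_mem_E⟩
  have := Finset.sum_le_sum_of_subset_of_nonneg (f := fun n : ℕ => (1 : ℝ) / n) h
    (fun n _ _ => by positivity)
  simpa using this

theorem A1_unbounded (B : ℝ) : ∃ N0 : ℕ, ∀ N : ℕ, N0 ≤ N → B ≤ ls N A1 := by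
  obtain ⟨w, hw⟩ := Q_sum_large (5 * |B|)
  refine ⟨5 * (w + 1), fun N hN => ?_⟩
  have hk := key N (w + 1) (by omega)
  have h1 : 1 ≤ N / (5 * (w + 1)) := (Nat.le_div_iff_mul_le (by omega)).2 (by omega)
  have h2 := ls_E_ge_one h1
  have h3 : ∑ q ∈ Q w, (1 : ℝ) / q ≤ ∑ q ∈ Q (w + 1), (1 : ℝ) / q := by
    refine Finset.sum_le_sum_of_subset_of_nonneg ?_ (fun n _ _ => by positivity)
    intro q hq
    rw [mem_Q] at hq ⊢
    exact ⟨by omega, hq.2⟩
  have h4 : |B| ≤ (1 / 5) * ∑ q ∈ Q (w + 1), (1 : ℝ) / q := by linarith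
  have h5 : |B| ≤ (1 / 5) * (∑ q ∈ Q (w + 1), (1 : ℝ) / q) * ls (N / (5 * (w + 1))) E := by
    have h0 : 0 ≤ |B| := abs_nonneg B
    nlinarith
  exact (le_abs_self B).trans (h5.trans hk)

theorem E_rare (ε : ℝ) (hε : 0 < ε) : ∃ N0 : ℕ, ∀ N : ℕ, N0 ≤ N → ls N E ≤ ε * ls N A1 := by
  obtain ⟨w, hw⟩ := Q_sum_large (10 / ε)
  have h3 : ∑ q ∈ Q w, (1 : ℝ) / q ≤ ∑ q ∈ Q (w + 1), (1 : ℝ) / q := by
    refine Finset.sum_le_sum_of_subset_of_nonneg ?_ (fun n _ _ => by positivity)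
    intro q hq
    rw [mem_Q] at hq ⊢
    exact ⟨by omega, hq.2⟩
  obtain ⟨N0, hN0⟩ := A1_unbounded (10 * (w + 1) / ε)
  refine ⟨N0, fun N hN => ?_⟩
  have hk := key N (w + 1) (by omega)
  have ht := ls_tail N (5 * (w + 1)) (by omega) E
  have hA := hN0 N hN
  have h0 := ls_nonneg (N / (5 * (w + 1))) E
  have h1 : 2 / ε * ls (N / (5 * (w + 1))) E ≤ ls N A1 := by
    refine le_trans ?_ hk
    refine mul_le_mul_of_nonneg_right ?_ h0
    have : 2 / ε = (1 / 5) * (10 / ε) := by ring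
    rw [this]
    linarith
  have h2 : ls (N / (5 * (w + 1))) E ≤ ε / 2 * ls N A1 := by
    have h4 : ε / 2 * (2 / ε * ls (N / (5 * (w + 1))) E) ≤ ε / 2 * ls N A1 :=
      mul_le_mul_of_nonneg_left h1 (by positivity)
    have h5 : ε / 2 * (2 / ε * ls (N / (5 * (w + 1))) E) = ls (N / (5 * (w + 1))) E := by
      field_simp
    linarith
  have h6 : (5 * (w + 1) : ℝ) ≤ ε / 2 * ls N A1 := by
    have h7 : ε / 2 * (10 * (w + 1) / ε) ≤ ε / 2 * ls N A1 :=
      mul_le_mul_of_nonneg_left hA (by positivity)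
    have h8 : ε / 2 * (10 * (w + 1) / ε) = 5 * (w + 1) := by
      field_simp
      ring
    linarith
  push_cast at ht
  linarith

end Pool.Agent.Y880.SG
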