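import Pool.Agent.Y880.SG.CS

/-!
Transfer from `n = 4k+1` to `k`, with weights `1 / k`.
-/

set_option autoImplicit false

namespace Pool.Agent.Y880.SG

open Finset

/-- `k ≥ 1` and `4k+1` is a sum of two integer squares. -/
def Adm (k : ℕ) : Prop := 1 ≤ k ∧ ∃ x y : ℤ, 4 * (k : ℤ) + 1 = x ^ 2 + y ^ 2

/-- `∑ 1 / (4k+1)` -/
theorem tele (K : ℕ) : ∑ k ∈ Icc 1 K, ((1 : ℝ) / k - 1 / (k + 1)) ≤ 1 := by
  have h : ∀ K : ℕ, ∑ k ∈ Icc 1 K, ((1 : ℝ) / k - 1 / (k + 1)) = 1 - 1 / ((K : ℝ) + 1) := by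
    intro K
    induction K with
    | zero => simp
    | succ K ih =>
      rw [Finset.sum_Icc_succ_top (by omega), ih]
      push_cast
      ring
  rw [h K]
  have : 0 ≤ 1 / ((K : ℝ) + 1) := by positivity
  linarith

/-- lower comparison -/
theorem lk_le (K : ℕ) (P : ℕ → Prop) (R : ℕ → Prop) (h : ∀ k, 1 ≤ k → P k → R (4 * k + 1)) :
    ls K P ≤ 4 * ls (4 * K + 1) R + 1 := by
  classical
  have e1 : ∑ k ∈ (Icc 1 K).filter P, (1 : ℝ) / ((4 * k + 1 : ℕ) : ℝ) ≤ ls (4 * K + 1) R := by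
    rw [ls_eq]
    have e2 : ∑ k ∈ (Icc 1 K).filter P, (1 : ℝ) / ((4 * k + 1 : ℕ) : ℝ) =
        ∑ m ∈ (((Icc 1 K).filter P).image (fun k : ℕ => (4 * k + 1 : ℕ)) : Finset ℕ), (1 : ℝ) / (m : ℝ) := by
      rw [Finset.sum_image]
      intro a _ b _ hab
      have : 4 * a + 1 = 4 * b + 1 := hab
      omega
    rw [e2]
    refine Finset.sum_le_sum_of_subset_of_nonneg ?_ (fun n _ _ => by positivity)
    intro m hm
    rw [Finset.mem_image] at hm
    obtain ⟨k, hk, rfl⟩ := hm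
    rw [Finset.mem_filter, Finset.mem_Icc] at hk
    rw [Finset.mem_filter, Finset.mem_Icc]
    exact ⟨⟨by omega, by omega⟩, h k hk.1.1 hk.2⟩
  have e3 : ls K P ≤ ∑ k ∈ (Icc 1 K).filter P, (4 * ((1 : ℝ) / ((4 * k + 1 : ℕ) : ℝ)) +
      ((1 : ℝ) / k - 1 / (k + 1))) := by
    rw [ls_eq]
    refine Finset.sum_le_sum fun k hk => ?_
    rw [Finset.mem_filter, Finset.mem_Icc] at hk
    have hk0 : (0 : ℝ) < k := by
      have := hk.1.1
      exact_mod_cast this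
    push_cast
    have : (4 : ℝ) * (1 / (4 * k + 1)) - 1 / (k + 1) = 3 / ((4 * k + 1) * (k + 1)) := by
      field_simp
      ring
    have h0 : 0 ≤ 3 / ((4 * (k : ℝ) + 1) * (k + 1)) := by positivity
    linarith
  rw [Finset.sum_add_distrib, ← Finset.mul_sum] at e3
  have e4 : ∑ k ∈ (Icc 1 K).filter P, ((1 : ℝ) / k - 1 / (k + 1)) ≤ 1 := by
    refine le_trans ?_ (tele K)
    refine Finset.sum_le_sum_of_subset_of_nonneg (Finset.filter_subset _ _) fun k hk _ => ?_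
    rw [Finset.mem_Icc] at hk
    have hk0 : (0 : ℝ) < k := by
      have := hk.1
      exact_mod_cast this
    have : 1 / ((k : ℝ) + 1) ≤ 1 / k := one_div_le_one_div_of_le hk0 (by linarith)
    linarith
  linarith

/-- upper comparison: all `n ≤ 4K+1`, `n ≠ 1` with `R n` are of the form `4k+1`, `P k` -/
theorem le_lk (K : ℕ) (P : ℕ → Prop) (R : ℕ → Prop)
    (h : ∀ n, 2 ≤ n → R n → ∃ k, 1 ≤ k ∧ n = 4 * k + 1 ∧ P k) :
    4 * ls (4 * K + 1) R ≤ ls K P + 4 := by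
  classical
  have e1 : ls (4 * K + 1) R ≤ 1 + ∑ k ∈ (Icc 1 K).filter P, (1 : ℝ) / ((4 * k + 1 : ℕ) : ℝ) := by
    rw [ls_eq]
    have e2 : ∑ k ∈ (Icc 1 K).filter P, (1 : ℝ) / ((4 * k + 1 : ℕ) : ℝ) =
        ∑ m ∈ (((Icc 1 K).filter P).image (fun k : ℕ => (4 * k + 1 : ℕ)) : Finset ℕ), (1 : ℝ) / (m : ℝ) := by
      rw [Finset.sum_image]
      intro a _ b _ hab
      have : 4 * a + 1 = 4 * b + 1 := hab
      omega
    rw [e2]
    have hsub : (Icc 1 (4 * K + 1)).filter R ⊆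
        insert 1 (((Icc 1 K).filter P).image (fun k => 4 * k + 1)) := by
      intro n hn
      rw [Finset.mem_filter, Finset.mem_Icc] at hn
      rw [Finset.mem_insert]
      by_cases h1 : n = 1
      · exact Or.inl h1
      · right
        obtain ⟨k, hk1, rfl, hP⟩ := h n (by omega) hn.2
        rw [Finset.mem_image]
        refine ⟨k, ?_, rfl⟩
        rw [Finset.mem_filter, Finset.mem_Icc]
        exact ⟨⟨hk1, by omega⟩, hP⟩
    refine (Finset.sum_le_sum_of_subset_of_nonneg hsub (fun n _ _ => by positivity)).trans ?_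
    rw [Finset.sum_insert]
    · simp
    · intro h1
      rw [Finset.mem_image] at h1
      obtain ⟨k, hk, hk1⟩ := h1
      rw [Finset.mem_filter, Finset.mem_Icc] at hk
      omega
  have e3 : 4 * ∑ k ∈ (Icc 1 K).filter P, (1 : ℝ) / ((4 * k + 1 : ℕ) : ℝ) ≤ ls K P := by
    rw [ls_eq, Finset.mul_sum]
    refine Finset.sum_le_sum fun k hk => ?_
    rw [Finset.mem_filter, Finset.mem_Icc] at hk
    have hk0 : (0 : ℝ) < k := by
      have := hk.1.1
      exact_mod_cast this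
    push_cast
    rw [mul_one_div, div_le_div_iff₀ (by positivity) hk0]
    linarith
  linarith

section

variable (H : ℕ → Prop)
  (hH : ∀ k p : ℕ, Even k → p.Prime → p % 8 = 5 → Odd (padicValNat p (4 * k + 1)) → ¬ H k)

theorem even_unbounded (B : ℝ) :
    ∃ K0 : ℕ, ∀ K : ℕ, K0 ≤ K → B ≤ ls K (fun k => Adm k ∧ Even k) := by
  obtain ⟨N0, hN0⟩ := A1_unbounded (|B| + 1)
  refine ⟨N0, fun K hK => ?_⟩
  have h1 := hN0 (4 * K + 1) (by omega)
  have h2 := le_lk K (fun k => Adm k ∧ Even k) A1 (by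
    rintro n hn ⟨h8, x, y, hxy⟩
    refine ⟨n / 4, by omega, by omega, ⟨by omega, x, y, ?_⟩, ⟨n / 8, by omega⟩⟩
    rw [← hxy]
    have : n = 4 * (n / 4) + 1 := by omega
    conv_rhs => rw [this]
    push_cast
    ring)
  have h3 := le_abs_self B
  have h4 := abs_nonneg B
  linarith

include hH in
theorem even_rare (ε : ℝ) (hε : 0 < ε) :
    ∃ K0 : ℕ, ∀ K : ℕ, K0 ≤ K → ls K (fun k => Adm k ∧ Even k ∧ H k) ≤
      ε * ls K (fun k => Adm k ∧ Even k) := by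
  obtain ⟨N0, hN0⟩ := E_rare (ε / 2) (by positivity)
  obtain ⟨K1, hK1⟩ := even_unbounded ((1 + 2 * ε) * 2 / ε)
  refine ⟨N0 + K1, fun K hK => ?_⟩
  have h1 := hN0 (4 * K + 1) (by omega)
  have h2 := le_lk K (fun k => Adm k ∧ Even k) A1 (by
    rintro n hn ⟨h8, x, y, hxy⟩
    refine ⟨n / 4, by omega, by omega, ⟨by omega, x, y, ?_⟩, ⟨n / 8, by omega⟩⟩
    rw [← hxy]
    have : n = 4 * (n / 4) + 1 := by omega
    conv_rhs => rw [this]
    push_cast
    ring)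
  have h3 := lk_le K (fun k => Adm k ∧ Even k ∧ H k) E (by
    rintro k hk ⟨⟨-, x, y, hxy⟩, hev, hHk⟩
    refine ⟨⟨?_, x, y, ?_⟩, ?_⟩
    · obtain ⟨j, hj⟩ := hev
      omega
    · push_cast
      exact hxy
    · intro p hp hp5
      by_contra hodd
      exact hH k p hev hp hp5 (Nat.not_even_iff_odd.1 hodd) hHk)
  have h4 := hK1 K (by omega)
  set L := ls K (fun k => Adm k ∧ Even k) with hL
  set A := ls (4 * K + 1) A1 with hA
  have h5 : (1 + 2 * ε) * 2 ≤ L * ε := by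
    rwa [div_le_iff₀ hε] at h4
  have h6 : ε / 2 * (4 * A) ≤ ε / 2 * (L + 4) := mul_le_mul_of_nonneg_left h2 (by positivity)
  nlinarith

include hH in
theorem all_half (ε : ℝ) (hε : 0 < ε) :
    ∃ K0 : ℕ, ∀ K : ℕ, K0 ≤ K → (1 / 2 - ε) * ls K Adm ≤ ls K (fun k => Adm k ∧ ¬ H k) := by
  by_cases hε2 : 1 / 2 ≤ ε
  · refine ⟨0, fun K _ => ?_⟩
    have h1 := ls_nonneg K Adm
    have h2 := ls_nonneg K (fun k => Adm k ∧ ¬ H k)
    nlinarith
  push Not at hε2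
  obtain ⟨K1, hK1⟩ := even_rare H hH ε hε
  obtain ⟨N2, hN2⟩ := A5_le ε hε
  obtain ⟨K3, hK3⟩ := even_unbounded (12 / ε)
  refine ⟨K1 + N2 + K3, fun K hK => ?_⟩
  have h1 := hK1 K (by omega)
  have h2 := hN2 (4 * K + 1) (by omega)
  have h3 := hK3 K (by omega)
  have h4 := le_lk K (fun k => Adm k ∧ Even k) A1 (by
    rintro n hn ⟨h8, x, y, hxy⟩
    refine ⟨n / 4, by omega, by omega, ⟨by omega, x, y, ?_⟩, ⟨n / 8, by omega⟩⟩
    rw [← hxy]
    have : n = 4 * (n / 4) + 1 := by omega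
    conv_rhs => rw [this]
    push_cast
    ring)
  have h5 := lk_le K (fun k => Adm k ∧ ¬ Even k) A5 (by
    rintro k hk ⟨⟨-, x, y, hxy⟩, hodd⟩
    refine ⟨?_, x, y, ?_⟩
    · obtain ⟨j, hj⟩ := Nat.not_even_iff_odd.1 hodd
      omega
    · push_cast
      exact hxy)
  have h6 : ls K Adm ≤ ls K (fun k => Adm k ∧ Even k) + ls K (fun k => Adm k ∧ ¬ Even k) := by
    refine le_trans (ls_mono_pred K fun k _ _ h => ?_) (ls_or K _ _)
    by_cases he : Even k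
    · exact Or.inl ⟨h, he⟩
    · exact Or.inr ⟨h, he⟩
  have h7 : ls K (fun k => Adm k ∧ Even k) ≤
      ls K (fun k => Adm k ∧ Even k ∧ H k) + ls K (fun k => Adm k ∧ ¬ H k) := by
    refine le_trans (ls_mono_pred K fun k _ _ h => ?_) (ls_or K _ _)
    by_cases he : H k
    · exact Or.inl ⟨h.1, h.2, he⟩
    · exact Or.inr ⟨h.1, he⟩
  set L := ls K (fun k => Adm k ∧ Even k) with hL
  set A := ls (4 * K + 1) A1 with hA
  set O := ls K (fun k => Adm k ∧ ¬ Even k) with hO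
  set W := ls K Adm with hW
  set G := ls K (fun k => Adm k ∧ ¬ H k) with hG
  have h8 : 12 ≤ L * ε := by rwa [div_le_iff₀ hε] at h3
  have h9 : O ≤ (1 + ε) * (L + 4) + 1 := by nlinarith
  have h10 : W ≤ (2 + ε) * L + 7 := by nlinarith
  have h11 : (1 - ε) * L ≤ G := by linarith
  have h12 : (1 / 2 - ε) * W ≤ (1 / 2 - ε) * ((2 + ε) * L + 7) :=
    mul_le_mul_of_nonneg_left h10 (by linarith)
  have hL0 : 0 ≤ L := ls_nonneg _ _
  nlinarith [mul_nonneg hε.le hL0, mul_nonneg (mul_nonneg hε.le hε.le) hL0]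

end

end Pool.Agent.Y880.SG
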